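import Pool.Agent.Results.MP_402458_gt.PointCase

/-!
# The separating set of a submanifold in its cut locus, in every codimension at least three

`M k = ℝ × ℝ × S¹ × ℝᵏ` with coordinates `(x, z, θ, y)` and the metric
`dx² + dz² / (1 + x²) + dθ² + dy₁² + ... + dy_k²`; the submanifold is
`N k m = {(0, 0, 0, y) : y_i = 0 for i ≥ m}`, of dimension `m ≤ k`.
-/

open Set Topology MeasureTheory
open scoped ContDiff

namespace Pool.Agent.Y855.BI

open Pool.Agent.Results.MP_402458_gt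

/-- The manifold `M = ℝ × ℝ × S¹ × ℝᵏ` of dimension `3 + k`, with `S¹ = ℝ / 2πℤ` and coordinates
`(x, z, θ, y)`. -/
abbrev M (k : ℕ) : Type := ℝ × ℝ × Real.Angle × (Fin k → ℝ)

/-- Tangent vectors in the coordinates `(x, z, θ, y)`. -/
abbrev V (k : ℕ) : Type := ℝ × ℝ × ℝ × (Fin k → ℝ)

/-- The norm of the tangent vector `v` at a point with first coordinate `x`, for the Riemannian
metric `dx² + dz² / (1 + x²) + dθ² + dy₁² + ... + dy_k²`. -/
noncomputable def nrm {k : ℕ} (x : ℝ) (v : V k) : ℝ :=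
  Real.sqrt (v.1 ^ 2 + v.2.1 ^ 2 / (1 + x ^ 2) + v.2.2.1 ^ 2 + ∑ i, v.2.2.2 i ^ 2)

/-- A parametrised curve in `M`; `θ` is a lift of the angular coordinate. -/
structure Crv (k : ℕ) where
  /-- first coordinate -/
  x : ℝ → ℝ
  /-- second coordinate -/
  z : ℝ → ℝ
  /-- lift of the angular coordinate -/
  θ : ℝ → ℝ
  /-- the other coordinates -/
  y : Fin k → ℝ → ℝ

variable {k : ℕ}

/-- The point of `M` at time `t`. -/
noncomputable def Crv.pt (c : Crv k) (t : ℝ) : M k :=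
  (c.x t, c.z t, (c.θ t : Real.Angle), fun i => c.y i t)

/-- The velocity at time `t`. -/
noncomputable def Crv.vel (c : Crv k) (t : ℝ) : V k :=
  (deriv c.x t, deriv c.z t, deriv c.θ t, fun i => deriv (c.y i) t)

/-- The curve is of class `C^n`. -/
def Crv.OfClass (c : Crv k) (n : ℕ∞) : Prop :=
  ContDiff ℝ n c.x ∧ ContDiff ℝ n c.z ∧ ContDiff ℝ n c.θ ∧ ∀ i, ContDiff ℝ n (c.y i)

/-- The closed submanifold `N = {(0, 0, 0, y) : y_i = 0 for i ≥ m}` of `M`; the coordinates `y_i`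
are numbered from `0` to `k - 1`, and `N` has dimension `m` when `m ≤ k` (a point when `m = 0`). -/
def N (k m : ℕ) : Set (M k) :=
  {P | P.1 = 0 ∧ P.2.1 = 0 ∧ P.2.2.1 = 0 ∧ ∀ i : Fin k, m ≤ (i : ℕ) → P.2.2.2 i = 0}

/-- The tangent space of `N` (the same in the coordinates at every point of `N`). -/
def TN (k m : ℕ) : Set (V k) :=
  {w | w.1 = 0 ∧ w.2.1 = 0 ∧ w.2.2.1 = 0 ∧ ∀ i : Fin k, m ≤ (i : ℕ) → w.2.2.2 i = 0}

/-- The inner product of `v` and `w` at a point with first coordinate `x`. -/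
noncomputable def inn {k : ℕ} (x : ℝ) (v w : V k) : ℝ :=
  v.1 * w.1 + v.2.1 * w.2.1 / (1 + x ^ 2) + v.2.2.1 * w.2.2.1 + ∑ i, v.2.2.2 i * w.2.2.2 i

/-- The distance from `N`: the infimum of the lengths of the `C¹` curves from `N` to `P`. -/
noncomputable def dN (m : ℕ) (P : M k) : ℝ :=
  sInf {L : ℝ | ∃ c : Crv k, c.OfClass 1 ∧ c.pt 0 ∈ N k m ∧ c.pt 1 = P ∧
    ∫ t in (0 : ℝ)..1, nrm (c.x t) (c.vel t) = L}

/-- Geodesics, by the geodesic equations of the metric. -/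
def IsGeo (c : Crv k) : Prop :=
  c.OfClass ⊤ ∧ ∀ t : ℝ,
    deriv (deriv c.x) t = - (c.x t * deriv c.z t ^ 2 / (1 + c.x t ^ 2) ^ 2) ∧
    deriv (deriv c.z) t = 2 * c.x t * deriv c.x t * deriv c.z t / (1 + c.x t ^ 2) ∧
    deriv (deriv c.θ) t = 0 ∧ ∀ i, deriv (deriv (c.y i)) t = 0

/-- The point `(0, 0, 0, 0)`. -/
noncomputable def o (k : ℕ) : M k := (0, 0, 0, 0)

/-- `ρ` is the (finite) cut time of the tangent vector `v` at `p`: the supremum of the `t` with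
`d(N, γ(t)) = t`, where `γ` is the geodesic from `p` with velocity `v`. -/
def IsCutTime (m : ℕ) (p : M k) (v : V k) (ρ : ℝ) : Prop :=
  IsLUB {t : ℝ | 0 ≤ t ∧ ∃ c : Crv k, IsGeo c ∧ c.pt 0 = p ∧ c.vel 0 = v ∧
    dN m (c.pt t) = t} ρ

/-- The tangent cut locus of `N`: the vectors `ρ(v) v`, `v` a unit vector normal to `N` at a point
`p` of `N`, with finite cut time. A tangent vector `u` at `p` is the pair `(p, u)`. -/
def TangentCut (k m : ℕ) : Set (M k × V k) :=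
  {q | q.1 ∈ N k m ∧ ∃ v : V k, ∃ ρ : ℝ, (∀ w ∈ TN k m, inn q.1.1 v w = 0) ∧ nrm q.1.1 v = 1 ∧
    IsCutTime m q.1 v ρ ∧ q.2 = ρ • v}

/-- `P = exp(p, u)`: `P` is the value at time `1` of the geodesic from `p` with velocity `u`. -/
def IsExp (q : M k × V k) (P : M k) : Prop :=
  ∃ c : Crv k, IsGeo c ∧ c.pt 0 = q.1 ∧ c.vel 0 = q.2 ∧ c.pt 1 = P

/-- The cut locus of `N`. -/
def Cut (k m : ℕ) : Set (M k) := {P | ∃ q ∈ TangentCut k m, IsExp q P}

/-- `c` restricted to `[0, ℓ]` is an `N`-segment: a unit-speed geodesic from a point of `N` with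
`d(N, c ℓ) = ℓ`. -/
def IsNSegment (m : ℕ) (ℓ : ℝ) (c : Crv k) : Prop :=
  0 ≤ ℓ ∧ IsGeo c ∧ c.pt 0 ∈ N k m ∧ (∀ t, nrm (c.x t) (c.vel t) = 1) ∧ dN m (c.pt ℓ) = ℓ

/-- The separating set: points joined to `N` by two `N`-segments that are distinct on `[0, ℓ]`. -/
def Sep (k m : ℕ) : Set (M k) :=
  {P | ∃ ℓ : ℝ, ∃ c₁ c₂ : Crv k, IsNSegment m ℓ c₁ ∧ IsNSegment m ℓ c₂ ∧ c₁.pt ℓ = P ∧
    c₂.pt ℓ = P ∧ ∃ t ∈ Icc 0 ℓ, c₁.pt t ≠ c₂.pt t}

/-- The vectors of the tangent cut locus whose exponential lies in the separating set. -/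
def TangentSep (k m : ℕ) : Set (M k × V k) :=
  {q | q ∈ TangentCut k m ∧ ∃ P ∈ Sep k m, IsExp q P}

/-! ### Projection and lift -/

/-- The projection of a curve to `ℝ × ℝ × S¹`. -/
def Crv.base (c : Crv k) : PointCase.Crv := ⟨c.x, c.z, c.θ⟩

/-- A curve in `ℝ × ℝ × S¹`, with `y = 0`. -/
def lift (k : ℕ) (c : PointCase.Crv) : Crv k := ⟨c.x, c.z, c.θ, fun _ _ => 0⟩

lemma lift_pt {c : PointCase.Crv} {t z : ℝ} {x : ℝ} {φ : Real.Angle} (h : c.pt t = (x, z, φ)) :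
    (lift k c).pt t = (x, z, φ, 0) := by
  simp only [PointCase.Crv.pt, Prod.mk.injEq] at h
  obtain ⟨h1, h2, h3⟩ := h
  simp only [Crv.pt, lift, h1, h2, h3]
  rfl

lemma base_pt {c : Crv k} {t z : ℝ} {x : ℝ} {φ : Real.Angle} {y : Fin k → ℝ}
    (h : c.pt t = (x, z, φ, y)) : c.base.pt t = (x, z, φ) := by
  simp only [Crv.pt, Prod.mk.injEq] at h
  obtain ⟨h1, h2, h3, -⟩ := h
  simp only [PointCase.Crv.pt, Crv.base, h1, h2, h3]

lemma lift_vel {c : PointCase.Crv} {t a b κ : ℝ} (h : c.vel t = (a, b, κ)) :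
    (lift k c).vel t = (a, b, κ, 0) := by
  simp only [PointCase.Crv.vel, Prod.mk.injEq] at h
  obtain ⟨h1, h2, h3⟩ := h
  simp only [Crv.vel, lift, h1, h2, h3, deriv_const]
  rfl

lemma base_vel {c : Crv k} {t a b κ : ℝ} {y : Fin k → ℝ} (h : c.vel t = (a, b, κ, y)) :
    c.base.vel t = (a, b, κ) := by
  simp only [Crv.vel, Prod.mk.injEq] at h
  obtain ⟨h1, h2, h3, -⟩ := h
  simp only [PointCase.Crv.vel, Crv.base, h1, h2, h3]

lemma lift_nrm (c : PointCase.Crv) (t : ℝ) :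
    nrm ((lift k c).x t) ((lift k c).vel t) = PointCase.nrm (c.x t) (c.vel t) := by
  simp [nrm, PointCase.nrm, Crv.vel, PointCase.Crv.vel, lift]

lemma base_nrm_le (c : Crv k) (t : ℝ) :
    PointCase.nrm (c.base.x t) (c.base.vel t) ≤ nrm (c.x t) (c.vel t) := by
  simp only [nrm, PointCase.nrm, Crv.vel, PointCase.Crv.vel, Crv.base]
  apply Real.sqrt_le_sqrt
  have : 0 ≤ ∑ i, (deriv (c.y i) t) ^ 2 := Finset.sum_nonneg fun i _ => sq_nonneg _
  linarith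

lemma lift_class {c : PointCase.Crv} {n : ℕ∞} (h : c.OfClass n) : (lift k c).OfClass n :=
  ⟨h.1, h.2.1, h.2.2, fun _ => contDiff_const⟩

lemma base_class {c : Crv k} {n : ℕ∞} (h : c.OfClass n) : c.base.OfClass n :=
  ⟨h.1, h.2.1, h.2.2.1⟩

lemma lift_geo {c : PointCase.Crv} (h : PointCase.IsGeo c) : IsGeo (lift k c) := by
  refine ⟨lift_class h.1, fun t => ⟨(h.2 t).1, (h.2 t).2.1, (h.2 t).2.2, fun i => ?_⟩⟩
  simp [lift]

lemma base_geo {c : Crv k} (h : IsGeo c) : PointCase.IsGeo c.base :=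
  ⟨base_class h.1, fun t => ⟨(h.2 t).1, (h.2 t).2.1, (h.2 t).2.2.1⟩⟩

lemma geo_y {c : Crv k} (h : IsGeo c) (i : Fin k) (t : ℝ) :
    c.y i t = c.y i 0 + deriv (c.y i) 0 * t := by
  have hg : PointCase.IsGeo ⟨fun _ => 0, fun _ => 0, c.y i⟩ := by
    refine ⟨⟨contDiff_const, contDiff_const, h.1.2.2.2 i⟩, fun t => ⟨?_, ?_, (h.2 t).2.2.2 i⟩⟩
    · simp
    · simp
  exact PointCase.geo_θ hg t

/-! ### Distances -/

lemma speed_continuous {c : Crv k} (hc : c.OfClass 1) :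
    Continuous fun t => nrm (c.x t) (c.vel t) := by
  obtain ⟨hx, hz, hθ, hy⟩ := hc
  have h1 := hx.continuous_deriv (by simp)
  have h2 := hz.continuous_deriv (by simp)
  have h3 := hθ.continuous_deriv (by simp)
  have h4 := hx.continuous
  have h5 : ∀ i, Continuous (deriv (c.y i)) := fun i => (hy i).continuous_deriv (by simp)
  unfold nrm Crv.vel
  simp only
  apply Continuous.sqrt
  have e1 : Continuous fun t => deriv c.z t ^ 2 / (1 + c.x t ^ 2) :=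
    (h2.pow 2).div (by fun_prop) (fun t => by positivity)
  have e2 : Continuous fun t => ∑ i, deriv (c.y i) t ^ 2 :=
    continuous_finsetSum _ fun i _ => (h5 i).pow 2
  exact (((h1.pow 2).add e1).add (h3.pow 2)).add e2

lemma bddBelow_lengths (m : ℕ) (Q : M k) : BddBelow {L : ℝ | ∃ c : Crv k, c.OfClass 1 ∧
    c.pt 0 ∈ N k m ∧ c.pt 1 = Q ∧ ∫ t in (0 : ℝ)..1, nrm (c.x t) (c.vel t) = L} := by
  refine ⟨0, ?_⟩
  rintro L ⟨c, -, -, -, rfl⟩
  exact intervalIntegral.integral_nonneg zero_le_one (fun t _ => Real.sqrt_nonneg _)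

lemma o_mem (k m : ℕ) : o k ∈ N k m := ⟨rfl, rfl, rfl, fun _ _ => rfl⟩

lemma base_mem {m : ℕ} {c : Crv k} {t : ℝ} (h : c.pt t ∈ N k m) : c.base.pt t = PointCase.o := by
  obtain ⟨h1, h2, h3, -⟩ := h
  simp only [Crv.pt] at h1 h2 h3
  simp only [PointCase.Crv.pt, Crv.base, PointCase.o, h1, h2, h3]

lemma nonempty_lengths (z φ : ℝ) : {L : ℝ | ∃ c : PointCase.Crv, c.OfClass 1 ∧
    c.pt 0 = PointCase.o ∧ c.pt 1 = (0, z, (φ : Real.Angle)) ∧
    ∫ t in (0 : ℝ)..1, PointCase.nrm (c.x t) (c.vel t) = L}.Nonempty :=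
  ⟨_, PointCase.line z φ, PointCase.line_class z φ 1,
    by simp [PointCase.line_pt, PointCase.o], by simp [PointCase.line_pt], rfl⟩

lemma dN_emb (m : ℕ) (z φ : ℝ) :
    dN m ((0, z, (φ : Real.Angle), 0) : M k) =
      PointCase.dM PointCase.o (0, z, (φ : Real.Angle)) := by
  have hmem : ∀ c : PointCase.Crv, c.OfClass 1 → c.pt 0 = PointCase.o →
      c.pt 1 = (0, z, (φ : Real.Angle)) →
      ∫ t in (0 : ℝ)..1, PointCase.nrm (c.x t) (c.vel t) ∈
        {L : ℝ | ∃ c : Crv k, c.OfClass 1 ∧ c.pt 0 ∈ N k m ∧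
          c.pt 1 = (0, z, (φ : Real.Angle), 0) ∧
          ∫ t in (0 : ℝ)..1, nrm (c.x t) (c.vel t) = L} := by
    intro c hc h0 h1
    refine ⟨lift k c, lift_class hc, ?_, lift_pt h1, ?_⟩
    · rw [lift_pt h0]; exact o_mem k m
    · simp_rw [lift_nrm]
  apply le_antisymm
  · apply le_csInf (nonempty_lengths z φ)
    rintro L ⟨c, hc, h0, h1, rfl⟩
    exact csInf_le (bddBelow_lengths _ _) (hmem c hc h0 h1)
  · apply le_csInf
    · obtain ⟨L, c, hc, h0, h1, -⟩ := nonempty_lengths z φ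
      exact ⟨_, hmem c hc h0 h1⟩
    · rintro L ⟨c, hc, h0, h1, rfl⟩
      have h2 : PointCase.dM PointCase.o (0, z, (φ : Real.Angle)) ≤
          ∫ t in (0 : ℝ)..1, PointCase.nrm (c.base.x t) (c.base.vel t) :=
        csInf_le (PointCase.bddBelow_lengths _ _)
          ⟨c.base, base_class hc, base_mem h0, base_pt h1, rfl⟩
      refine h2.trans ?_
      apply intervalIntegral.integral_mono_on zero_le_one
      · exact (PointCase.speed_continuous (base_class hc)).intervalIntegrable _ _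
      · exact (speed_continuous hc).intervalIntegrable _ _
      · exact fun t _ => base_nrm_le c t

/-! ### Cut points -/

lemma geo_pt {c : Crv k} (h : IsGeo c) (h0 : c.pt 0 = o k) {b κ : ℝ}
    (hv : c.vel 0 = (0, b, κ, 0)) (t : ℝ) :
    c.pt t = (0, b * t, ((κ * t : ℝ) : Real.Angle), 0) := by
  have h1 := PointCase.geo_pt (base_geo h) (base_pt h0) (base_vel hv) t
  have hy : ∀ i, c.y i t = 0 := by
    intro i
    have e0 : c.y i 0 = 0 := congrFun (congrArg (fun P : M k => P.2.2.2) h0) i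
    have e1 : deriv (c.y i) 0 = 0 := congrFun (congrArg (fun P : V k => P.2.2.2) hv) i
    rw [geo_y h i t, e0, e1]; ring
  simp only [PointCase.Crv.pt, Crv.base, Prod.mk.injEq] at h1
  simp only [Crv.pt, h1.1, h1.2.1, h1.2.2, hy]
  rfl

lemma isCutTime (m : ℕ) {φ : ℝ} (hφ : |φ| ≤ Real.pi) :
    IsCutTime m (o k) ((0, Real.pi / Real.sqrt (Real.pi ^ 2 + φ ^ 2),
      φ / Real.sqrt (Real.pi ^ 2 + φ ^ 2), 0) : V k) (Real.sqrt (Real.pi ^ 2 + φ ^ 2)) := by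
  have h3 := PointCase.isCutTime hφ
  unfold PointCase.IsCutTime at h3
  unfold IsCutTime
  convert h3 using 1
  ext t
  constructor
  · rintro ⟨ht, c, hc, hc0, hcv, hd⟩
    refine ⟨ht, c.base, base_geo hc, base_pt hc0, base_vel hcv, ?_⟩
    rw [geo_pt hc hc0 hcv t, dN_emb] at hd
    rw [base_pt (geo_pt hc hc0 hcv t)]
    exact hd
  · rintro ⟨ht, c, hc, hc0, hcv, hd⟩
    refine ⟨ht, lift k c, lift_geo hc, lift_pt hc0, lift_vel hcv, ?_⟩
    rw [lift_pt (PointCase.geo_pt hc hc0 hcv t), dN_emb]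
    rw [PointCase.geo_pt hc hc0 hcv t] at hd
    exact hd

lemma mem_tangentCut (m : ℕ) {φ : ℝ} (hφ : |φ| ≤ Real.pi) :
    (o k, ((0, Real.pi, φ, 0) : V k)) ∈ TangentCut k m := by
  have hLp := PointCase.norm_pos φ
  refine ⟨o_mem k m, _, _, ?_, ?_, isCutTime m hφ, ?_⟩
  · rintro w ⟨h1, h2, h3, -⟩
    simp [inn, h1, h2, h3]
  · have hL2 := PointCase.norm_sq' φ
    have : ((0 : ℝ) ^ 2 + (Real.pi / Real.sqrt (Real.pi ^ 2 + φ ^ 2)) ^ 2 / (1 + 0 ^ 2) +
        (φ / Real.sqrt (Real.pi ^ 2 + φ ^ 2)) ^ 2) + ∑ i : Fin k, ((0 : Fin k → ℝ) i) ^ 2 = 1 := by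
      rw [div_pow, div_pow, hL2]
      have : Real.pi ^ 2 + φ ^ 2 ≠ 0 := by have := Real.pi_pos; positivity
      simp only [Pi.zero_apply]
      field_simp
      simp
    simp only [nrm, o]
    rw [this, Real.sqrt_one]
  · refine Prod.ext ?_ (Prod.ext ?_ (Prod.ext ?_ ?_))
    · simp
    · simp only [Prod.smul_mk, smul_eq_mul]; field_simp
    · simp only [Prod.smul_mk, smul_eq_mul]; field_simp
    · simp

lemma isExp (φ : ℝ) :
    IsExp (o k, ((0, Real.pi, φ, 0) : V k)) (0, Real.pi, (φ : Real.Angle), 0) := by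
  obtain ⟨c, hc, h0, hv, h1⟩ := PointCase.isExp φ
  exact ⟨lift k c, lift_geo hc, lift_pt h0, lift_vel hv, lift_pt h1⟩

lemma isExp_unique {φ : ℝ} {P : M k} (h : IsExp (o k, (0, Real.pi, φ, 0)) P) :
    P = (0, Real.pi, (φ : Real.Angle), 0) := by
  obtain ⟨c, hc, hc0, hcv, rfl⟩ := h
  rw [geo_pt hc hc0 hcv 1]; simp

lemma deriv_y {c : Crv k} (h : IsGeo c) (i : Fin k) (t : ℝ) :
    deriv (c.y i) t = deriv (c.y i) 0 := by
  have e : c.y i = fun t => c.y i 0 + deriv (c.y i) 0 * t := by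
    ext s; exact geo_y h i s
  rw [e]; simp

/-- The length of the projection of a unit-speed geodesic. -/
lemma base_length {c : Crv k} (hg : IsGeo c) (hunit : ∀ t, nrm (c.x t) (c.vel t) = 1) {ℓ : ℝ}
    (hℓ : 0 ≤ ℓ) (h0 : c.base.pt 0 = PointCase.o) :
    PointCase.dM PointCase.o (c.base.pt ℓ) ≤
      ℓ * Real.sqrt (1 - ∑ i, deriv (c.y i) 0 ^ 2) := by
  have hx := hg.1.1
  have hz := hg.1.2.1
  have hθ := hg.1.2.2.1
  have hs : ∀ {f : ℝ → ℝ}, ContDiff ℝ ((⊤ : ℕ∞) : WithTop ℕ∞) f → ContDiff ℝ 1 (fun t => f (ℓ * t)) := by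
    intro f hf
    have h1 : ContDiff ℝ 1 f := hf.of_le (by exact_mod_cast le_top)
    exact h1.comp (contDiff_const.mul contDiff_id)
  have hd : ∀ {f : ℝ → ℝ}, ContDiff ℝ ((⊤ : ℕ∞) : WithTop ℕ∞) f → ∀ t,
      deriv (fun t => f (ℓ * t)) t = ℓ * deriv f (ℓ * t) := by
    intro f hf t
    have h1 := (PointCase.hasDerivAt_of hf (ℓ * t)).comp t ((hasDerivAt_id t).const_mul ℓ)
    have h2 := h1.deriv
    simp only [mul_one] at h2
    have h3 : (fun t => f (ℓ * t)) = f ∘ fun y => ℓ * y := rfl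
    rw [h3, h2]; ring
  let c' : PointCase.Crv := ⟨fun t => c.x (ℓ * t), fun t => c.z (ℓ * t), fun t => c.θ (ℓ * t)⟩
  have hc' : c'.OfClass 1 := ⟨hs hx, hs hz, hs hθ⟩
  have hn : ∀ t, PointCase.nrm (c'.x t) (c'.vel t) =
      ℓ * Real.sqrt (1 - ∑ i, deriv (c.y i) 0 ^ 2) := by
    intro t
    have hu := hunit (ℓ * t)
    simp only [nrm, Crv.vel] at hu
    have hy : ∑ i, deriv (c.y i) (ℓ * t) ^ 2 = ∑ i, deriv (c.y i) 0 ^ 2 :=
      Finset.sum_congr rfl fun i _ => by rw [deriv_y hg i (ℓ * t)]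
    rw [hy] at hu
    have hnn : 0 ≤ ∑ i, deriv (c.y i) 0 ^ 2 := Finset.sum_nonneg fun i _ => sq_nonneg _
    have hu2 : deriv c.x (ℓ * t) ^ 2 + deriv c.z (ℓ * t) ^ 2 / (1 + c.x (ℓ * t) ^ 2) +
        deriv c.θ (ℓ * t) ^ 2 + ∑ i, deriv (c.y i) 0 ^ 2 = 1 := by
      have h3 := Real.sq_sqrt (show 0 ≤ deriv c.x (ℓ * t) ^ 2 + deriv c.z (ℓ * t) ^ 2 /
        (1 + c.x (ℓ * t) ^ 2) + deriv c.θ (ℓ * t) ^ 2 + ∑ i, deriv (c.y i) 0 ^ 2 by positivity)
      rw [hu] at h3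
      linarith
    have e : (1 - ∑ i, deriv (c.y i) 0 ^ 2) = deriv c.x (ℓ * t) ^ 2 +
        deriv c.z (ℓ * t) ^ 2 / (1 + c.x (ℓ * t) ^ 2) + deriv c.θ (ℓ * t) ^ 2 := by linarith
    rw [e]
    simp only [PointCase.nrm, PointCase.Crv.vel, c', hd hx, hd hz, hd hθ]
    have e2 : (ℓ * deriv c.x (ℓ * t)) ^ 2 + (ℓ * deriv c.z (ℓ * t)) ^ 2 / (1 + c.x (ℓ * t) ^ 2) +
        (ℓ * deriv c.θ (ℓ * t)) ^ 2 = ℓ ^ 2 * (deriv c.x (ℓ * t) ^ 2 +
        deriv c.z (ℓ * t) ^ 2 / (1 + c.x (ℓ * t) ^ 2) + deriv c.θ (ℓ * t) ^ 2) := by ring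
    rw [e2, Real.sqrt_mul (sq_nonneg ℓ), Real.sqrt_sq hℓ]
  have hlen : ∫ t in (0 : ℝ)..1, PointCase.nrm (c'.x t) (c'.vel t) =
      ℓ * Real.sqrt (1 - ∑ i, deriv (c.y i) 0 ^ 2) := by
    simp_rw [hn]; simp
  rw [← hlen]
  apply csInf_le (PointCase.bddBelow_lengths _ _)
  refine ⟨c', hc', ?_, ?_, rfl⟩
  · rw [← h0]
    simp [PointCase.Crv.pt, c', Crv.base]
  · simp [PointCase.Crv.pt, c', Crv.base]

/-- An `N`-segment that ends at `(0, π, φ, 0)`, `0 ≤ φ < π`, is the line. -/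
lemma segment_unique {m : ℕ} {φ : ℝ} (h0 : 0 ≤ φ) (h1 : φ < Real.pi) {ℓ : ℝ} {c : Crv k}
    (hc : IsNSegment m ℓ c) (he : c.pt ℓ = (0, Real.pi, (φ : Real.Angle), 0)) :
    ∀ t, c.pt t = (0, Real.pi / Real.sqrt (Real.pi ^ 2 + φ ^ 2) * t,
      ((φ / Real.sqrt (Real.pi ^ 2 + φ ^ 2) * t : ℝ) : Real.Angle), 0) := by
  obtain ⟨hℓ, hg, hc0, hunit, hd⟩ := hc
  have hπ := Real.pi_pos
  have hφ : |φ| ≤ Real.pi := by rw [abs_of_nonneg h0]; exact h1.le
  have hd3 : PointCase.dM PointCase.o (0, Real.pi, (φ : Real.Angle)) = ℓ := by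
    rw [← dN_emb (k := k) m, ← he]; exact hd
  have hℓp : 0 < ℓ := by
    rw [← hd3, PointCase.dM_eq hπ.le le_rfl hφ]
    exact PointCase.norm_pos φ
  have hnn : 0 ≤ ∑ i, deriv (c.y i) 0 ^ 2 := Finset.sum_nonneg fun i _ => sq_nonneg _
  have hY : ∑ i, deriv (c.y i) 0 ^ 2 = 0 := by
    have h2 := base_length hg hunit hℓ (base_mem hc0)
    rw [base_pt he, hd3] at h2
    have h3 : 1 ≤ Real.sqrt (1 - ∑ i, deriv (c.y i) 0 ^ 2) := by
      by_contra hcon
      push Not at hcon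
      have := mul_lt_mul_of_pos_left hcon hℓp
      linarith
    have h4 : 1 ≤ 1 - ∑ i, deriv (c.y i) 0 ^ 2 := by
      have := (Real.le_sqrt' one_pos).1 h3
      linarith
    linarith
  have hy1 : ∀ i, deriv (c.y i) 0 = 0 := by
    intro i
    have := (Finset.sum_eq_zero_iff_of_nonneg (fun i _ => sq_nonneg (deriv (c.y i) 0))).1 hY i
      (Finset.mem_univ i)
    exact pow_eq_zero_iff (two_ne_zero) |>.1 this
  have hy0 : ∀ i, c.y i = fun _ => 0 := by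
    intro i
    have e1 : c.y i ℓ = 0 := congrFun (congrArg (fun P : M k => P.2.2.2) he) i
    have e2 := geo_y hg i ℓ
    rw [e1, hy1 i, zero_mul, add_zero] at e2
    ext t
    rw [geo_y hg i t, hy1 i, ← e2]; ring
  have hseg : PointCase.IsNSegment ℓ c.base := by
    refine ⟨hℓ, base_geo hg, base_mem hc0, fun t => ?_, ?_⟩
    · rw [← hunit t]
      simp only [nrm, PointCase.nrm, Crv.vel, PointCase.Crv.vel, Crv.base, hy0, deriv_const]
      simp
    · rw [base_pt he]; exact hd3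
  intro t
  have h3 := PointCase.segment_unique h0 h1 hseg (base_pt he) t
  simp only [PointCase.Crv.pt, Crv.base, Prod.mk.injEq] at h3
  simp only [Crv.pt, h3.1, h3.2.1, h3.2.2, hy0]
  rfl

lemma not_mem_sep (m : ℕ) {φ : ℝ} (h0 : 0 ≤ φ) (h1 : φ < Real.pi) :
    ((0, Real.pi, (φ : Real.Angle), 0) : M k) ∉ Sep k m := by
  rintro ⟨ℓ, c₁, c₂, hs₁, hs₂, he₁, he₂, t, -, hne⟩
  apply hne
  rw [segment_unique h0 h1 hs₁ he₁ t, segment_unique h0 h1 hs₂ he₂ t]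

lemma lift_segment (m : ℕ) {ℓ z φ : ℝ} {c : PointCase.Crv} (h : PointCase.IsNSegment ℓ c)
    (he : c.pt ℓ = (0, z, (φ : Real.Angle))) : IsNSegment m ℓ (lift k c) := by
  obtain ⟨hℓ, hg, hc0, hunit, hd⟩ := h
  refine ⟨hℓ, lift_geo hg, ?_, fun t => by rw [lift_nrm]; exact hunit t, ?_⟩
  · rw [lift_pt hc0]; exact o_mem k m
  · rw [lift_pt he, dN_emb, ← he]
    exact hd

lemma pi_mem_sep (m : ℕ) : ((0, Real.pi, (Real.pi : Real.Angle), 0) : M k) ∈ Sep k m := by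
  obtain ⟨ℓ, c₁, c₂, hs₁, hs₂, he₁, he₂, t, ht, hne⟩ := PointCase.pi_mem_sep
  refine ⟨ℓ, lift k c₁, lift k c₂, lift_segment m hs₁ he₁, lift_segment m hs₂ he₂, lift_pt he₁,
    lift_pt he₂, t, ht, ?_⟩
  intro h
  apply hne
  simp only [Crv.pt, lift, Prod.mk.injEq] at h
  simp only [PointCase.Crv.pt, h.1, h.2.1, h.2.2.1]

/-! ### Limits -/

lemma tangent_closure (k m : ℕ) :
    (o k, ((0, Real.pi, Real.pi, 0) : V k)) ∈ closure (TangentCut k m \ TangentSep k m) := by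
  have hc : Continuous fun φ : ℝ => (o k, ((0, Real.pi, φ, 0) : V k)) :=
    continuous_const.prodMk
      (continuous_const.prodMk (continuous_const.prodMk (continuous_id.prodMk continuous_const)))
  have ht : Filter.Tendsto (fun φ : ℝ => (o k, ((0, Real.pi, φ, 0) : V k))) (𝓝[<] Real.pi)
      (𝓝 (o k, (0, Real.pi, Real.pi, 0))) := (hc.tendsto Real.pi).mono_left nhdsWithin_le_nhds
  apply mem_closure_of_tendsto ht
  filter_upwards [PointCase.ev_small] with φ hφ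
  refine ⟨mem_tangentCut m (by rw [abs_of_nonneg hφ.1]; exact hφ.2.le), ?_⟩
  rintro ⟨-, P, hP, hE⟩
  rw [isExp_unique hE] at hP
  exact not_mem_sep m hφ.1 hφ.2 hP

lemma cut_closure (k m : ℕ) :
    ((0, Real.pi, (Real.pi : Real.Angle), 0) : M k) ∈ closure (Cut k m \ Sep k m) := by
  have hc : Continuous fun φ : ℝ => ((0, Real.pi, (φ : Real.Angle), 0) : M k) :=
    continuous_const.prodMk (continuous_const.prodMk
      (Real.Angle.continuous_coe.prodMk continuous_const))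
  have ht : Filter.Tendsto (fun φ : ℝ => ((0, Real.pi, (φ : Real.Angle), 0) : M k))
      (𝓝[<] Real.pi) (𝓝 (0, Real.pi, (Real.pi : Real.Angle), 0)) :=
    (hc.tendsto Real.pi).mono_left nhdsWithin_le_nhds
  apply mem_closure_of_tendsto ht
  filter_upwards [PointCase.ev_small] with φ hφ
  exact ⟨⟨_, mem_tangentCut m (by rw [abs_of_nonneg hφ.1]; exact hφ.2.le), isExp φ⟩,
    not_mem_sep m hφ.1 hφ.2⟩

/-- `N` is the image of a closed embedding of `ℝᵐ`. -/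
lemma closed_embedding {k m : ℕ} (h : m ≤ k) :
    ∃ f : (Fin m → ℝ) → M k, IsClosedEmbedding f ∧ range f = N k m := by
  classical
  let f : (Fin m → ℝ) → M k := fun w =>
    (0, 0, 0, fun i => if hi : (i : ℕ) < m then w ⟨i, hi⟩ else 0)
  let g : M k → (Fin m → ℝ) := fun P j => P.2.2.2 (Fin.castLE h j)
  have hfg : Function.LeftInverse g f := by
    intro w
    ext j
    simp [f, g]
  have hg : Continuous g := by
    apply continuous_pi
    intro j
    exact (continuous_apply _).comp (continuous_snd.comp (continuous_snd.comp continuous_snd))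
  have hf : Continuous f := by
    refine continuous_const.prodMk (continuous_const.prodMk (continuous_const.prodMk ?_))
    apply continuous_pi
    intro i
    by_cases hi : (i : ℕ) < m
    · simp only [hi, dif_pos]; exact continuous_apply _
    · simp only [hi, dif_neg, not_false_eq_true]; exact continuous_const
  refine ⟨f, hfg.isClosedEmbedding hg hf, ?_⟩
  ext P
  constructor
  · rintro ⟨w, rfl⟩
    refine ⟨rfl, rfl, rfl, fun i hi => ?_⟩
    simp [f, not_lt.2 hi]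
  · rintro ⟨h1, h2, h3, h4⟩
    refine ⟨g P, ?_⟩
    refine Prod.ext h1.symm (Prod.ext h2.symm (Prod.ext h3.symm ?_))
    ext i
    by_cases hi : (i : ℕ) < m
    · simp [f, g, hi]
    · simp [f, hi, h4 i (not_lt.1 hi)]

/-- `M` is complete: every geodesic is defined for all times. -/
lemma complete (P : M k) (v : V k) : ∃ c : Crv k, IsGeo c ∧ c.pt 0 = P ∧ c.vel 0 = v := by
  obtain ⟨x, z, θ, y⟩ := P
  obtain ⟨a, b, κ, w⟩ := v
  obtain ⟨c, hc, h0, hv⟩ := PointCase.complete (x, z, θ) (a, b, κ)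
  have hd : ∀ i, deriv (fun t : ℝ => y i + w i * t) = fun _ => w i := by
    intro i; ext t; simp
  simp only [PointCase.Crv.pt, Prod.mk.injEq] at h0
  simp only [PointCase.Crv.vel, Prod.mk.injEq] at hv
  refine ⟨⟨c.x, c.z, c.θ, fun i t => y i + w i * t⟩,
    ⟨⟨hc.1.1, hc.1.2.1, hc.1.2.2, fun i => by fun_prop⟩, fun t =>
      ⟨(hc.2 t).1, (hc.2 t).2.1, (hc.2 t).2.2, fun i => ?_⟩⟩, ?_, ?_⟩
  · show deriv (deriv fun t : ℝ => y i + w i * t) t = 0
    rw [hd i]; simp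
  · simp only [Crv.pt, h0.1, h0.2.1, h0.2.2]
    simp
  · simp only [Crv.vel, hv.1, hv.2.1, hv.2.2]
    simp

theorem main {k m : ℕ} (hmk : m ≤ k) :
    (∀ (P : M k) (v : V k), ∃ c : Crv k, IsGeo c ∧ c.pt 0 = P ∧ c.vel 0 = v) ∧
    (∃ f : (Fin m → ℝ) → M k, IsClosedEmbedding f ∧ range f = N k m) ∧
    (∃ q ∈ TangentSep k m, q ∈ closure (TangentCut k m \ TangentSep k m)) ∧
    ¬ IsOpen {q : TangentCut k m | (q : M k × V k) ∈ TangentSep k m} ∧
    (∃ P ∈ Cut k m ∩ Sep k m, P ∈ closure (Cut k m \ Sep k m)) ∧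
    ¬ IsOpen {P : Cut k m | (P : M k) ∈ Sep k m} := by
  have hT : (o k, ((0, Real.pi, Real.pi, 0) : V k)) ∈ TangentCut k m :=
    mem_tangentCut m (by rw [abs_of_pos Real.pi_pos])
  have hTS : (o k, ((0, Real.pi, Real.pi, 0) : V k)) ∈ TangentSep k m :=
    ⟨hT, _, pi_mem_sep m, isExp Real.pi⟩
  have hC : ((0, Real.pi, (Real.pi : Real.Angle), 0) : M k) ∈ Cut k m :=
    ⟨_, hT, isExp Real.pi⟩
  exact ⟨complete, closed_embedding hmk, ⟨_, hTS, tangent_closure k m⟩,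
    PointCase.not_open_of_closure hT hTS (tangent_closure k m),
    ⟨_, ⟨hC, pi_mem_sep m⟩, cut_closure k m⟩,
    PointCase.not_open_of_closure hC (pi_mem_sep m) (cut_closure k m)⟩

end Pool.Agent.Y855.BI
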